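import Pool.Agent.helper88.RQ2.Spec

set_option autoImplicit false

open Set Matroid RadonMin

namespace RadonQ2

/-- The collinear triples. -/
def VZ_T : Finset (Finset (Fin 7)) :=
  {{1, 2, 3}, {0, 2, 4}, {0, 1, 5}, {0, 3, 6}, {1, 4, 6}, {2, 5, 6}}

/-- The triple that is not collinear. -/
def VZ_N : Finset (Finset (Fin 7)) := {{3, 4, 5}}

lemma VZ_grow3 : ∀ t : Finset (Fin 7), t.card = 3 →
    t ∈ VZ_T ∨ t ∈ VZ_N ∨ (grow VZ_T)^[7] t = Finset.univ := by
  decide +kernel

lemma VZ_growA : ∃ A : Finset (Fin 7), A.card = 3 ∧ (grow VZ_T)^[7] A = Finset.univ :=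
  ⟨{0, 1, 6}, by decide, by decide +kernel⟩

lemma VZ_count : VZ_T.card +
    ((Finset.powersetCard 4 (Finset.univ : Finset (Fin 7))).filter
      (fun u => ∀ t ∈ VZ_T, ¬ t ⊆ u)).card = 17 := by
  decide +kernel

section
variable {V : Type} [AddCommGroup V] [Module ℝ V]

lemma VZ_mem_line {x y z u w : V} (h : Col x y z) (hne : x ≠ y)
    (hx : x ∈ line[ℝ, u, w]) (hy : y ∈ line[ℝ, u, w]) : z ∈ line[ℝ, u, w] := by
  have h1 : z ∈ line[ℝ, x, y] :=
    h.mem_affineSpan_of_mem_of_ne (p₁ := x) (p₂ := y) (p₃ := z) (by simp) (by simp) (by simp) hne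
  exact affineSpan_pair_le_of_mem_of_mem hx hy h1

lemma VZ_collinear_of_line {S : Set V} {u w : V} (hu : u ∈ S)
    (h : ∀ x ∈ S, x ∈ line[ℝ, u, w]) : Collinear ℝ S := by
  rw [collinear_iff_of_mem hu]
  refine ⟨w - u, fun x hx => ?_⟩
  obtain ⟨r, hr⟩ := mem_affineSpan_pair_iff_exists_lineMap_eq.1 (h x hx)
  refine ⟨r, ?_⟩
  rw [← hr, AffineMap.lineMap_apply]
  rfl

lemma VZ_perm {x y z x' y' z' : V} (h : Col x y z)
    (hs : ({x', y', z'} : Set V) = {x, y, z}) : Col x' y' z' := by
  unfold Col at *
  rwa [hs]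

end

theorem VZ_proof (hVT : VT_stmt) (hGTR : GTR_stmt) : VZ_stmt := by
  intro V _ _ _ X hX
  obtain ⟨a, b, c, d, e, f, g, hcard, hB, hbcd, hcae, habf, hadg, hbeg, hcfg, hnc⟩ := hX
  obtain ⟨p, hp⟩ : ∃ p : Fin 7 → V, p = ![a, b, c, d, e, f, g] := ⟨_, rfl⟩
  have p0 : p 0 = a := by rw [hp]; rfl
  have p1 : p 1 = b := by rw [hp]; rfl
  have p2 : p 2 = c := by rw [hp]; rfl
  have p3 : p 3 = d := by rw [hp]; rfl
  have p4 : p 4 = e := by rw [hp]; rfl
  have p5 : p 5 = f := by rw [hp]; rfl
  have p6 : p 6 = g := by rw [hp]; rfl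
  have hu : (Finset.univ : Finset (Fin 7)) = {0, 1, 2, 3, 4, 5, 6} := by decide
  have himg : (Finset.univ : Finset (Fin 7)).image p = X := by
    apply Finset.coe_injective
    rw [hB, hu]
    simp only [Finset.image_insert, Finset.image_singleton, p0, p1, p2, p3, p4, p5, p6,
      Finset.coe_insert, Finset.coe_singleton]
  have hinj : Function.Injective p := by
    have h1 : ((Finset.univ : Finset (Fin 7)).image p).card = (Finset.univ : Finset (Fin 7)).card := by
      rw [himg, hcard]; rfl
    have h2 := Finset.card_image_iff.1 h1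
    intro x y hxy
    exact h2 (by simp) (by simp) hxy
  have hmem : ∀ i, p i ∈ X := by
    intro i
    rw [← himg]
    exact Finset.mem_image_of_mem _ (Finset.mem_univ _)
  have hne : ∀ i j : Fin 7, i ≠ j → p i ≠ p j := fun i j hij h => hij (hinj h)
  have ha := hmem 0
  have hb := hmem 1
  have hc := hmem 2
  have hd := hmem 3
  have he := hmem 4
  have hf := hmem 5
  have hg := hmem 6
  rw [p0] at ha
  rw [p1] at hb
  rw [p2] at hc
  rw [p3] at hd
  rw [p4] at he
  rw [p5] at hf
  rw [p6] at hg
  have hab : a ≠ b := by have := hne 0 1 (by decide); rwa [p0, p1] at this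
  have hac : a ≠ c := by have := hne 0 2 (by decide); rwa [p0, p2] at this
  have had : a ≠ d := by have := hne 0 3 (by decide); rwa [p0, p3] at this
  have hae : a ≠ e := by have := hne 0 4 (by decide); rwa [p0, p4] at this
  have haf : a ≠ f := by have := hne 0 5 (by decide); rwa [p0, p5] at this
  have hag : a ≠ g := by have := hne 0 6 (by decide); rwa [p0, p6] at this
  have hbc : b ≠ c := by have := hne 1 2 (by decide); rwa [p1, p2] at this
  have hbd : b ≠ d := by have := hne 1 3 (by decide); rwa [p1, p3] at this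
  have hbe : b ≠ e := by have := hne 1 4 (by decide); rwa [p1, p4] at this
  have hbf : b ≠ f := by have := hne 1 5 (by decide); rwa [p1, p5] at this
  have hbg : b ≠ g := by have := hne 1 6 (by decide); rwa [p1, p6] at this
  have hcd : c ≠ d := by have := hne 2 3 (by decide); rwa [p2, p3] at this
  have hce : c ≠ e := by have := hne 2 4 (by decide); rwa [p2, p4] at this
  have hcf : c ≠ f := by have := hne 2 5 (by decide); rwa [p2, p5] at this
  have hcg : c ≠ g := by have := hne 2 6 (by decide); rwa [p2, p6] at this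
  have hde : d ≠ e := by have := hne 3 4 (by decide); rwa [p3, p4] at this
  have hdf : d ≠ f := by have := hne 3 5 (by decide); rwa [p3, p5] at this
  have hdg : d ≠ g := by have := hne 3 6 (by decide); rwa [p3, p6] at this
  have hef : e ≠ f := by have := hne 4 5 (by decide); rwa [p4, p5] at this
  have heg : e ≠ g := by have := hne 4 6 (by decide); rwa [p4, p6] at this
  have hfg : f ≠ g := by have := hne 5 6 (by decide); rwa [p5, p6] at this
  -- the points `g, a, b` are not collinear
  have hgab : ¬ Col g a b := by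
    intro h
    apply hnc
    have la : a ∈ line[ℝ, a, b] := left_mem_affineSpan_pair ℝ a b
    have lb : b ∈ line[ℝ, a, b] := right_mem_affineSpan_pair ℝ a b
    have lf : f ∈ line[ℝ, a, b] := VZ_mem_line habf hab la lb
    have lg : g ∈ line[ℝ, a, b] := VZ_mem_line (VZ_perm h (by ext w; simp; tauto)) hab la lb
    have ld : d ∈ line[ℝ, a, b] :=
      VZ_mem_line (x := a) (y := g) (VZ_perm hadg (by ext w; simp; tauto)) hag la lg
    have le : e ∈ line[ℝ, a, b] :=
      VZ_mem_line (x := b) (y := g) (VZ_perm hbeg (by ext w; simp; tauto)) hbg lb lg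
    have lc : c ∈ line[ℝ, a, b] :=
      VZ_mem_line (x := b) (y := d) (VZ_perm hbcd (by ext w; simp; tauto)) hbd lb ld
    apply VZ_collinear_of_line (u := a) (w := b) (by exact_mod_cast ha)
    intro x hx
    rw [hB] at hx
    simp only [mem_insert_iff, mem_singleton_iff] at hx
    rcases hx with rfl | rfl | rfl | rfl | rfl | rfl | rfl <;> assumption
  -- `d, e, f` are not collinear
  have hdef : ¬ Col d e f := by
    intro h
    apply not_fano X
    refine ⟨g, a, d, b, e, f, c, hag.symm, hbg.symm, hab, by exact_mod_cast hg,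
      by exact_mod_cast ha, by exact_mod_cast hb, ?_, ?_, ?_, ?_, ?_, ?_, ?_, ?_⟩
    · intro h1
      exact hgab ((hGTR V X g a b hg ha hb hag.symm hab hbg.symm).1 h1)
    · exact (hGTR V X g a d hg ha hd hag.symm had hdg.symm).2
        (VZ_perm hadg (by ext w; simp; tauto))
    · exact (hGTR V X g b e hg hb he hbg.symm hbe heg.symm).2
        (VZ_perm hbeg (by ext w; simp; tauto))
    · exact (hGTR V X g f c hg hf hc hfg.symm hcf.symm hcg.symm).2
        (VZ_perm hcfg (by ext w; simp; tauto))
    · exact (hGTR V X a b f ha hb hf hab hbf haf).2 habf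
    · exact (hGTR V X a e c ha he hc hae hce.symm hac).2
        (VZ_perm hcae (by ext w; simp; tauto))
    · exact (hGTR V X d b c hd hb hc hbd.symm hbc hcd.symm).2
        (VZ_perm hbcd (by ext w; simp; tauto))
    · exact (hGTR V X d e f hd he hf hde hef hdf).2 h
  have key := hVT V 7 p hinj VZ_T VZ_N ?_ ?_ VZ_growA ?_ VZ_grow3
  · rw [himg, VZ_count] at key
    exact key
  · intro t ht
    simp only [VZ_T, Finset.mem_insert, Finset.mem_singleton] at ht
    rcases ht with rfl | rfl | rfl | rfl | rfl | rfl
    · refine ⟨by decide, ?_⟩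
      simp only [Finset.image_insert, Finset.image_singleton, p0, p1, p2, p3, p4, p5, p6,
        Finset.coe_insert, Finset.coe_singleton]
      exact hbcd
    · refine ⟨by decide, ?_⟩
      simp only [Finset.image_insert, Finset.image_singleton, p0, p1, p2, p3, p4, p5, p6,
        Finset.coe_insert, Finset.coe_singleton]
      exact VZ_perm hcae (by ext w; simp; tauto)
    · refine ⟨by decide, ?_⟩
      simp only [Finset.image_insert, Finset.image_singleton, p0, p1, p2, p3, p4, p5, p6,
        Finset.coe_insert, Finset.coe_singleton]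
      exact habf
    · refine ⟨by decide, ?_⟩
      simp only [Finset.image_insert, Finset.image_singleton, p0, p1, p2, p3, p4, p5, p6,
        Finset.coe_insert, Finset.coe_singleton]
      exact hadg
    · refine ⟨by decide, ?_⟩
      simp only [Finset.image_insert, Finset.image_singleton, p0, p1, p2, p3, p4, p5, p6,
        Finset.coe_insert, Finset.coe_singleton]
      exact hbeg
    · refine ⟨by decide, ?_⟩
      simp only [Finset.image_insert, Finset.image_singleton, p0, p1, p2, p3, p4, p5, p6,
        Finset.coe_insert, Finset.coe_singleton]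
      exact hcfg
  · intro t ht
    simp only [VZ_N, Finset.mem_singleton] at ht
    subst ht
    simp only [Finset.image_insert, Finset.image_singleton, p0, p1, p2, p3, p4, p5, p6,
      Finset.coe_insert, Finset.coe_singleton]
    exact hdef
  · rw [himg]
    exact hnc

end RadonQ2
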